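import Pool.Agent.Helper346.Cay.CayDeg
import Pool.Agent.Helper346.Cay.Final

set_option autoImplicit false

namespace Pool.Agent.Results.MP_6271a1_ag.UnboundedCayley

open Pool.Agent.Helper346.Cay

/-- The Cayley degrees of the simple algebraic groups `SL_n` are unbounded, over every
algebraically closed field of characteristic zero. -/
theorem result : ∀ (k : Type*) [Field k] [IsAlgClosed k] [CharZero k] (d : ℕ),
    ∃ n : ℕ, 2 ≤ n ∧ d < cayleyDegree n k :=
  fun k _ _ _ d => unbounded k d

end Pool.Agent.Results.MP_6271a1_ag.UnboundedCayley
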